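import Pool.Agent.Helper60.IP.Zero

/-!
# Evaluation of directed acyclic graphs by programs which inspect few cells: an unobserved cell of the root
-/

set_option autoImplicit false

namespace Pool.Agent.Helper58.IP

open Pool.Agent.Helper6.IP Pool.Agent.Helper60.IP

variable {G : Dag} {A : Type} [AddCommGroup A] {N : ℕ}

/-- The slot `s` is the first slot of the root whose right cell is never observed. -/
structure RootSlot (o : ℕ → G.Cell A ⊕ A) (I : G.Cell A → A) (num : G.Slot → ℕ) (s : G.Slot) : Prop where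
  own : G.own s = G.root
  unseen : ∀ j, o j ≠ Sum.inl (rc I s)
  least : ∀ s', G.own s' = G.root → (∀ j, o j ≠ Sum.inl (rc I s')) → num s ≤ num s'

theorem rootSlot_exists {o : ℕ → G.Cell A ⊕ A} {I : G.Cell A → A} (num : G.Slot → ℕ) {s₀ : G.Slot}
    (h₀ : G.own s₀ = G.root) (hu : ∀ j, o j ≠ Sum.inl (rc I s₀)) : ∃ s, RootSlot o I num s := by
  classical
  obtain ⟨s', hs', hmin⟩ := Finset.exists_min_image
    (Finset.univ.filter fun s : G.Slot => G.own s = G.root ∧ ∀ j, o j ≠ Sum.inl (rc I s)) num ⟨s₀, by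
        rw [Finset.mem_filter]
        exact ⟨Finset.mem_univ _, h₀, hu⟩⟩
  rw [Finset.mem_filter] at hs'
  refine ⟨s', hs'.2.1, hs'.2.2, fun s'' h5 h6 => ?_⟩
  exact hmin s'' (by rw [Finset.mem_filter]; exact ⟨Finset.mem_univ _, h5, h6⟩)

/-- The run does not see the change of the cell of the slot. -/
theorem RootSlot.obs_eq {B : BP (G.Cell A) A N} {q : Fin N} {num : G.Slot → ℕ} {I K : G.Cell A → A} {s : G.Slot}
    (h : RootSlot (obs B I q) I num s) (hK : ∀ c, c ≠ rc I s → K c = I c) : obs B I q = obs B K q :=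
  funext fun t => obs_congr (run_agree hK (fun i _ => h.unseen i) t le_rfl)

/-- Two instances which agree with a third one outside the cell of the slot, with the same value at the root. -/
theorem rootSlot_inj {B : BP (G.Cell A) A N} {q : Fin N} {num : G.Slot → ℕ}
    (hnum : Function.Injective num) {I I' K : G.Cell A → A} {s s' : G.Slot}
    (h : RootSlot (obs B I q) I num s) (h' : RootSlot (obs B I' q) I' num s')
    (hK : ∀ c, c ≠ rc I s → K c = I c) (hK' : ∀ c, c ≠ rc I' s' → K c = I' c)
    (hval : G.val I G.root = G.val I' G.root) : I = I' := by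
  have ho : obs B I q = obs B I' q := (h.obs_eq hK).trans (h'.obs_eq hK').symm
  have hss : G.own s' = G.own s := h'.own.trans h.own.symm
  have hrc : ∀ x, G.own x = G.own s → rc I x = rc I' x := fun x hx =>
    (rc_below hK hx).symm.trans (rc_below hK' (hx.trans hss.symm))
  have h6 : s = s' := by
    refine hnum (le_antisymm (h.least s' h'.own fun j => ?_) (h'.least s h.own fun j => ?_))
    · rw [hrc s' hss, ho]
      exact h'.unseen j
    · rw [← hrc s rfl, ← ho]
      exact h.unseen j
  subst h6
  have h7 : ∀ c, c ≠ rc I s → I c = I' c := by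
    intro c hc
    rw [← hK c hc]
    refine hK' c ?_
    rw [← hrc s rfl]
    exact hc
  funext c
  by_cases hc1 : c = rc I s
  · classical
    rw [← h.own, Pool.Agent.Helper6.IP.val_eq, Pool.Agent.Helper6.IP.val_eq] at hval
    have hmem : s ∈ Finset.univ.filter (fun s' => G.own s' = G.own s) := by simp
    rw [← Finset.add_sum_erase _ _ hmem, ← Finset.add_sum_erase _ _ hmem] at hval
    have hsum : ∑ x ∈ (Finset.univ.filter (fun s' => G.own s' = G.own s)).erase s, I (rc I x) =
        ∑ x ∈ (Finset.univ.filter (fun s' => G.own s' = G.own s)).erase s, I' (rc I' x) :=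
      Finset.sum_congr rfl fun x hx => by
        have hx1 := (Finset.mem_filter.1 (Finset.mem_of_mem_erase hx)).2
        rw [← hrc x hx1]
        exact h7 _ fun hx2 => Finset.ne_of_mem_erase hx (rc_inj hx2)
    rw [hsum] at hval
    have h8 := add_right_cancel hval
    rw [← hrc s rfl] at h8
    rw [hc1]
    exact h8
  · exact h7 c hc1

omit [AddCommGroup A] in
/-- The output is unique. -/
theorem out_unique {C : Type} {B : BP C A N} {I : C → A} {q : Fin N} {L L' : ℕ} {a a' : A}
    (h : obs B I q L = Sum.inr a) (h' : obs B I q L' = Sum.inr a') : a = a' := by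
  have hact : ∀ (r : Fin N) (b : A), see B r = Sum.inr b → B.act r = Sum.inr b := by
    intro r b hr
    unfold see at hr
    rcases hr' : B.act r with x | x
    · rw [hr'] at hr
      exact absurd hr (by simp)
    · rw [hr'] at hr
      simpa using hr
  have hstay : ∀ (M : ℕ) (b : A), obs B I q M = Sum.inr b → ∀ m, obs B I q (M + m) = Sum.inr b := by
    intro M b hM m
    have h1 : (B.step I)^[M + m] q = (B.step I)^[M] q := by
      induction m with
      | zero => rfl
      | succ m ih =>
        rw [← Nat.add_assoc, Function.iterate_succ_apply', ih]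
        have h2 := hact _ b hM
        generalize (B.step I)^[M] q = r at h2
        unfold BP.step
        rw [h2]
        rfl
    unfold obs
    rw [h1]
    exact hM
  have h1 := hstay L a h L'
  have h2 := hstay L' a' h' L
  rw [Nat.add_comm L' L] at h2
  rw [h1] at h2
  exact Sum.inr_injective h2

/-- IP-D. -/
theorem root_bound [Fintype A] (B : BP (G.Cell A) A N) (q : Fin N) (φ : A → A) (p : ℕ)
    (hφ : ∀ y, Nat.card {x // φ x = y} ≤ p) :
    Nat.card {I : G.Cell A → A // (∃ L, obs B I q L = Sum.inr (φ (G.val I G.root))) ∧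
      ∃ s, G.own s = G.root ∧ ∀ m, obs B I q m ≠ Sum.inl (rc I s)} * Fintype.card A ≤
      p * Nat.card (G.Cell A → A) := by
  classical
  obtain ⟨num, hnum⟩ : ∃ num : G.Slot → ℕ, Function.Injective num :=
    ⟨fun s => (Fintype.equivFin G.Slot s : ℕ), fun s s' h =>
      (Fintype.equivFin G.Slot).injective (Fin.val_injective h)⟩
  set X := {I : G.Cell A → A // (∃ L, obs B I q L = Sum.inr (φ (G.val I G.root))) ∧
      ∃ s, G.own s = G.root ∧ ∀ m, obs B I q m ≠ Sum.inl (rc I s)} with hX
  have hex : ∀ I : X, ∃ s, RootSlot (obs B I.1 q) I.1 num s := by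
    intro I
    obtain ⟨s₀, h₀, hu⟩ := I.2.2
    exact rootSlot_exists num h₀ hu
  choose S hS using hex
  rw [Nat.card_eq_fintype_card, Nat.card_eq_fintype_card, ← Fintype.card_prod, ← Finset.card_univ,
    ← Finset.card_univ]
  refine Finset.card_le_mul_card_image_of_maps_to
    (f := fun z : X × A => Function.update z.1.1 (rc z.1.1 (S z.1)) z.2) (fun _ _ => Finset.mem_univ _) p
    fun K _ => ?_
  have hoff : ∀ z : X × A, Function.update z.1.1 (rc z.1.1 (S z.1)) z.2 = K →
      ∀ c, c ≠ rc z.1.1 (S z.1) → K c = z.1.1 c := by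
    intro z hz c hc
    rw [← hz, Function.update_of_ne hc]
  have hon : ∀ z : X × A, Function.update z.1.1 (rc z.1.1 (S z.1)) z.2 = K →
      K (rc z.1.1 (S z.1)) = z.2 := by
    intro z hz
    rw [← hz, Function.update_self]
  by_cases hne : ∃ z : X × A, Function.update z.1.1 (rc z.1.1 (S z.1)) z.2 = K
  · obtain ⟨z₀, hz₀⟩ := hne
    refine le_trans ?_ (hφ (φ (G.val z₀.1.1 G.root)))
    rw [Nat.card_eq_fintype_card, Fintype.card_subtype]
    refine Finset.card_le_card_of_injOn (fun z => G.val z.1.1 G.root) (fun z hz => ?_)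
      fun z hz z' hz' hzz => ?_
    · have hz1 : Function.update z.1.1 (rc z.1.1 (S z.1)) z.2 = K := (Finset.mem_filter.1 hz).2
      refine Finset.mem_coe.2 (Finset.mem_filter.2 ⟨Finset.mem_univ _, ?_⟩)
      obtain ⟨L, hL⟩ := z.1.2.1
      obtain ⟨L₀, hL₀⟩ := z₀.1.2.1
      rw [(hS z.1).obs_eq (hoff z hz1)] at hL
      rw [(hS z₀.1).obs_eq (hoff z₀ hz₀)] at hL₀
      exact out_unique hL hL₀
    · have hz1 : Function.update z.1.1 (rc z.1.1 (S z.1)) z.2 = K := (Finset.mem_filter.1 hz).2
      have hz1' : Function.update z'.1.1 (rc z'.1.1 (S z'.1)) z'.2 = K := (Finset.mem_filter.1 hz').2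
      have h1 : z.1.1 = z'.1.1 :=
        rootSlot_inj hnum (hS z.1) (hS z'.1) (hoff z hz1) (hoff z' hz1') hzz
      have h2 : z.1 = z'.1 := Subtype.ext h1
      refine Prod.ext h2 ?_
      rw [← hon z hz1, ← hon z' hz1', h2]
  · rw [Finset.card_eq_zero.2]
    · exact Nat.zero_le _
    · exact Finset.filter_eq_empty_iff.2 fun z _ hz => hne ⟨z, hz⟩

end Pool.Agent.Helper58.IP
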